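import Pool.Agent.Work.MP_3007d7_an.Main

namespace Pool.Agent.Results.MP_3007d7_an.NoLowOrderFlatOutput

open Pool.Agent.Work.MP_3007d7_an

/-- With `r = min α₁ α₂ - 1`, the system has no flat output of order at most `r - 1`. -/
theorem result (α₁ α₂ : ℕ) (h₁ : 1 ≤ α₁) (h₂ : 1 ≤ α₂) (s : ℤ) (hs₀ : -1 ≤ s)
    (hs : s ≤ (min (α₁ : ℤ) α₂ - 1) - 1) : ¬ HasFlatOutputOfOrderLE α₁ α₂ s :=
  main α₁ α₂ s (by omega) (by omega)

end Pool.Agent.Results.MP_3007d7_an.NoLowOrderFlatOutput
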